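import Mathlib

/-!
Let `A = {1, 4, 7, ...}` and let `f_{A,n}(-1)` be the coefficient of `x^n` in the product of
`1/(1+x^a)` over `a` in `A`.  We prove that the sequence of signs of `f_{A,n}(-1)` is not
eventually periodic.

Idea.  If the signs were eventually periodic with period `p`, then the sum of `|f_{A,n}(-1)| r^n`
would be bounded by the sum of `|F(r z)|` over the `p`-th roots of unity `z`, up to a constant.
With `r = exp(-t)` and `t -> 0+`, each `t log |F(r z)|` tends to a number that is at most `0.1647`,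
while along the non-radial path `om * exp(-t(1-i))`, `om` a primitive cube root of unity, whose
modulus is also `exp(-t)`, the limit of `t log |F|` is larger than `0.17`.
-/

open Finset Filter Topology
open scoped Classical

namespace Pool.Agent.Results.MP_5217bf_nt.SignNotPeriodic

/-- The `n`-th `A`-partition polynomial `f_{A,n}(t)`: the sum of `t ^ (number of parts)` over all
partitions of `n` all of whose parts lie in `A`. -/
noncomputable def partitionPolynomial (A : Set ℕ) (n : ℕ) : Polynomial ℤ := by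
  classical
  exact ∑ p : n.Partition with (∀ a ∈ p.parts, a ∈ A), Polynomial.X ^ (Multiset.card p.parts)

/-- the progression 1,4,7,... -/
def A13 : Set ℕ := {a | ∃ m : ℕ, a = 3 * m + 1}

/-- complex version of the signed count -/
noncomputable def c (n : ℕ) : ℂ := (((partitionPolynomial A13 n).eval (-1) : ℤ) : ℂ)

/-- the character function -/
noncomputable def chf (i k : ℕ) : ℂ := if i % 3 = 1 then (-1) ^ k else 0

noncomputable def fac (a : ℕ) : PowerSeries ℂ :=
  PowerSeries.mk fun n => if a ∣ n then (-1) ^ (n / a) else 0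

open scoped PowerSeries.WithPiTopology

lemma fac_eq (a : ℕ) (ha : a ≠ 0) :
    (1 + ∑' j : ℕ, ((-1 : ℂ) ^ (j+1)) • (PowerSeries.X : PowerSeries ℂ) ^ (a * (j+1))) = fac a := by
  have hs : Summable fun j : ℕ => ((-1 : ℂ) ^ (j+1)) • (PowerSeries.X : PowerSeries ℂ) ^ (a * (j+1)) :=
    Nat.Partition.summable_genFun_term' (fun _ k => (-1 : ℂ) ^ k) ha
  ext n
  rw [map_add, hs.map_tsum _ (PowerSeries.WithPiTopology.continuous_coeff _ _)]
  simp only [fac, PowerSeries.coeff_mk, PowerSeries.coeff_one, map_smul, PowerSeries.coeff_X_pow,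
    smul_eq_mul]
  by_cases hn : n = 0
  · subst hn
    simp [ha]
  · simp only [hn, if_false, zero_add]
    split_ifs with hd
    · obtain ⟨k, rfl⟩ := hd
      have hk : k ≠ 0 := by rintro rfl; simp at hn
      rw [tsum_eq_single (k - 1)]
      · have : k - 1 + 1 = k := Nat.sub_add_cancel (Nat.one_le_iff_ne_zero.mpr hk)
        rw [this, Nat.mul_div_cancel_left _ (Nat.pos_of_ne_zero ha)]
        simp
      · intro j hj
        have : a * k ≠ a * (j + 1) := by
          intro h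
          have := Nat.eq_of_mul_eq_mul_left (Nat.pos_of_ne_zero ha) h
          omega
        simp [this]
    · have : ∀ j : ℕ, n ≠ a * (j + 1) := fun j h => hd ⟨j+1, h⟩
      simp [this]

noncomputable def P (M : ℕ) : PowerSeries ℂ :=
  ∏ i ∈ range M, (if (i + 1) % 3 = 1 then fac (i + 1) else 1)

lemma prod_chf (n : ℕ) (p : n.Partition) :
    p.parts.toFinsupp.prod chf = if (∀ a ∈ p.parts, a ∈ A13) then (-1) ^ (Multiset.card p.parts) else 0 := by
  classical
  split_ifs with h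
  · rw [Finsupp.prod]
    have : ∀ i ∈ p.parts.toFinsupp.support, chf i (p.parts.toFinsupp i) = (-1) ^ (p.parts.toFinsupp i) := by
      intro i hi
      have hi' : i ∈ p.parts := by simpa using hi
      obtain ⟨m, hm⟩ := h i hi'
      have : i % 3 = 1 := by omega
      simp [chf, this]
    rw [Finset.prod_congr rfl this, Finset.prod_pow_eq_pow_sum]
    congr 1
    simp only [Multiset.toFinsupp_support, Multiset.toFinsupp_apply]
    exact Multiset.toFinset_sum_count_eq p.parts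
  · push Not at h
    obtain ⟨a, ha, haA⟩ := h
    have h3 : ¬ (a % 3 = 1) := by
      intro h3
      exact haA ⟨a / 3, by omega⟩
    rw [Finsupp.prod]
    apply Finset.prod_eq_zero (i := a)
    · simpa using ha
    · simp [chf, h3]

lemma c_eq (n : ℕ) : c n = PowerSeries.coeff n (Nat.Partition.genFun chf) := by
  classical
  rw [Nat.Partition.coeff_genFun, c, partitionPolynomial]
  simp only [Polynomial.eval_finsetSum, Polynomial.eval_pow, Polynomial.eval_X]
  push_cast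
  rw [Finset.sum_filter]
  apply Finset.sum_congr rfl
  intro p _
  rw [prod_chf]

lemma tendsto_coeff (n : ℕ) : Tendsto (fun M => PowerSeries.coeff n (P M)) atTop (𝓝 (c n)) := by
  have h := (Nat.Partition.hasProd_genFun chf).tendsto_prod_nat
  have h2 := (PowerSeries.WithPiTopology.tendsto_iff_coeff_tendsto ..).1 h n
  rw [c_eq]
  refine h2.congr ?_
  intro M
  congr 1
  rw [P]
  apply Finset.prod_congr rfl
  intro i _
  split_ifs with h3
  · rw [← fac_eq (i+1) (Nat.succ_ne_zero i)]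
    simp [chf, h3]
  · simp [chf, h3]


/-- evaluation predicate -/
def Ev (φ : PowerSeries ℂ) (x v : ℂ) (B : ℝ) : Prop :=
  Summable (fun n => ‖PowerSeries.coeff n φ * x ^ n‖) ∧
  ∑' n, PowerSeries.coeff n φ * x ^ n = v ∧
  ∑' n, ‖PowerSeries.coeff n φ * x ^ n‖ ≤ B

lemma Ev.mul {φ ψ : PowerSeries ℂ} {x v w : ℂ} {B B' : ℝ} (h1 : Ev φ x v B) (h2 : Ev ψ x w B') :
    Ev (φ * ψ) x (v * w) (B * B') := by
  obtain ⟨s1, t1, b1⟩ := h1
  obtain ⟨s2, t2, b2⟩ := h2
  have key : ∀ n, PowerSeries.coeff n (φ * ψ) * x ^ n =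
      ∑ kl ∈ antidiagonal n, (PowerSeries.coeff kl.1 φ * x ^ kl.1) * (PowerSeries.coeff kl.2 ψ * x ^ kl.2) := by
    intro n
    rw [PowerSeries.coeff_mul, Finset.sum_mul]
    apply Finset.sum_congr rfl
    intro kl hkl
    rw [← mem_antidiagonal.1 hkl, pow_add]
    ring
  have hsn := summable_norm_sum_mul_antidiagonal_of_summable_norm s1 s2
  have hnorm : Summable (fun n => ‖‖PowerSeries.coeff n φ * x ^ n‖‖) := by simpa using s1
  have hnorm2 : Summable (fun n => ‖‖PowerSeries.coeff n ψ * x ^ n‖‖) := by simpa using s2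
  refine ⟨?_, ?_, ?_⟩
  · simp_rw [key]
    exact hsn
  · simp_rw [key]
    rw [← tsum_mul_tsum_eq_tsum_sum_antidiagonal_of_summable_norm s1 s2, t1, t2]
  · simp_rw [key]
    have hle : ∑' n, ‖∑ kl ∈ antidiagonal n, (PowerSeries.coeff kl.1 φ * x ^ kl.1) * (PowerSeries.coeff kl.2 ψ * x ^ kl.2)‖
        ≤ ∑' n, ∑ kl ∈ antidiagonal n, ‖PowerSeries.coeff kl.1 φ * x ^ kl.1‖ * ‖PowerSeries.coeff kl.2 ψ * x ^ kl.2‖ := by
      apply Summable.tsum_le_tsum _ hsn
      · have := summable_norm_sum_mul_antidiagonal_of_summable_norm hnorm hnorm2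
        refine this.congr ?_
        intro n
        rw [Real.norm_of_nonneg]
        exact Finset.sum_nonneg (fun _ _ => by positivity)
      · intro n
        refine (norm_sum_le _ _).trans ?_
        apply Finset.sum_le_sum
        intro kl _
        rw [norm_mul]
    refine hle.trans ?_
    rw [← tsum_mul_tsum_eq_tsum_sum_antidiagonal_of_summable_norm hnorm hnorm2]
    apply mul_le_mul b1 b2
    · exact tsum_nonneg (fun _ => norm_nonneg _)
    · exact (tsum_nonneg (fun _ => norm_nonneg _)).trans b1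

lemma Ev_one (x : ℂ) : Ev 1 x 1 1 := by
  have h : ∀ n, PowerSeries.coeff n (1 : PowerSeries ℂ) * x ^ n = if n = 0 then 1 else 0 := by
    intro n
    rw [PowerSeries.coeff_one]
    split_ifs with h
    · simp [h]
    · simp
  have h' : ∀ n, ‖PowerSeries.coeff n (1 : PowerSeries ℂ) * x ^ n‖ = if n = 0 then 1 else 0 := by
    intro n
    rw [h]
    split_ifs <;> simp
  refine ⟨?_, ?_, ?_⟩
  · simp_rw [h']
    apply summable_of_ne_finset_zero (s := {0})
    intro b hb
    simp at hb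
    simp [hb]
  · simp_rw [h]
    simp
  · simp_rw [h']
    simp

lemma Ev_fac (a : ℕ) (ha : a ≠ 0) (x : ℂ) (hx : ‖x‖ < 1) :
    Ev (fac a) x (1 + x ^ a)⁻¹ (1 - ‖x‖ ^ a)⁻¹ := by
  have hxa : ‖x‖ ^ a < 1 := pow_lt_one₀ (norm_nonneg _) hx ha
  have inj : Function.Injective (fun k : ℕ => a * k) := fun k l h =>
    Nat.eq_of_mul_eq_mul_left (Nat.pos_of_ne_zero ha) h
  have hz : ∀ n ∉ Set.range (fun k : ℕ => a * k), PowerSeries.coeff n (fac a) * x ^ n = 0 := by
    intro n hn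
    have : ¬ a ∣ n := by
      rintro ⟨k, rfl⟩
      exact hn ⟨k, rfl⟩
    simp [fac, this]
  have hv : ∀ k, PowerSeries.coeff (a * k) (fac a) * x ^ (a * k) = (-(x ^ a)) ^ k := by
    intro k
    simp only [fac, PowerSeries.coeff_mk, dvd_mul_right, if_true]
    rw [Nat.mul_div_cancel_left _ (Nat.pos_of_ne_zero ha), pow_mul, ← mul_pow]
    ring
  have hg : ‖-(x ^ a)‖ < 1 := by rw [norm_neg, norm_pow]; exact hxa
  have hsum : HasSum (fun n => PowerSeries.coeff n (fac a) * x ^ n) (1 + x ^ a)⁻¹ := by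
    rw [← inj.hasSum_iff hz]
    have := hasSum_geometric_of_norm_lt_one hg
    simp only [sub_neg_eq_add] at this
    refine this.congr_fun ?_
    intro k
    simp only [Function.comp]
    rw [hv]
  have hsumn : HasSum (fun n => ‖PowerSeries.coeff n (fac a) * x ^ n‖) (1 - ‖x‖ ^ a)⁻¹ := by
    rw [← inj.hasSum_iff (fun n hn => by rw [hz n hn, norm_zero])]
    have := hasSum_geometric_of_lt_one (pow_nonneg (norm_nonneg x) a) hxa
    refine this.congr_fun ?_
    intro k
    simp only [Function.comp]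
    rw [hv, norm_pow, norm_neg, norm_pow]
  exact ⟨hsumn.summable, hsum.tsum_eq, hsumn.tsum_eq.le⟩


noncomputable def V (M : ℕ) (x : ℂ) : ℂ := ∏ i ∈ range M, (if (i + 1) % 3 = 1 then (1 + x ^ (i + 1))⁻¹ else 1)

lemma Ev_P (M : ℕ) (x : ℂ) (hx : ‖x‖ < 1) :
    Ev (P M) x (V M x) (∏ i ∈ range M, (1 - ‖x‖ ^ (i + 1))⁻¹) := by
  induction M with
  | zero => simpa [P, V] using Ev_one x
  | succ M ih =>
    rw [P, V, Finset.prod_range_succ, Finset.prod_range_succ, Finset.prod_range_succ]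
    apply ih.mul
    split_ifs with h
    · exact Ev_fac (M + 1) (Nat.succ_ne_zero M) x hx
    · obtain ⟨h1, h2, h3⟩ := Ev_one x
      refine ⟨h1, h2, h3.trans ?_⟩
      have hxa : ‖x‖ ^ (M + 1) < 1 := pow_lt_one₀ (norm_nonneg _) hx (Nat.succ_ne_zero M)
      apply (one_le_inv₀ (by linarith)).2
      have := pow_nonneg (norm_nonneg x) (M + 1)
      linarith

lemma prod_bound (r : ℝ) (h0 : 0 ≤ r) (h1 : r < 1) (M : ℕ) :
    ∏ i ∈ range M, (1 - r ^ (i + 1))⁻¹ ≤ Real.exp ((1 - r)⁻¹ * (1 - r)⁻¹) := by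
  have hr : 0 < 1 - r := by linarith
  have h2 : ∀ i ∈ range M, (1 - r ^ (i + 1))⁻¹ ≤ Real.exp (r ^ i * (1 - r)⁻¹) := by
    intro i _
    have hy0 : 0 ≤ r ^ (i + 1) := pow_nonneg h0 _
    have hyr : r ^ (i + 1) ≤ r := by
      rw [pow_succ]
      exact mul_le_of_le_one_left h0 (pow_le_one₀ h0 h1.le)
    have hyri : r ^ (i + 1) ≤ r ^ i := by
      rw [pow_succ]
      exact mul_le_of_le_one_right (pow_nonneg h0 i) h1.le
    have hy1 : 0 < 1 - r ^ (i + 1) := by linarith
    have e1 : (1 - r ^ (i + 1))⁻¹ = 1 + r ^ (i + 1) * (1 - r ^ (i + 1))⁻¹ := by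
      field_simp
      ring
    have e2 : r ^ (i + 1) * (1 - r ^ (i + 1))⁻¹ ≤ r ^ i * (1 - r)⁻¹ := by
      apply mul_le_mul hyri _ (by positivity) (pow_nonneg h0 i)
      apply inv_anti₀ hr
      linarith
    have e3 := Real.add_one_le_exp (r ^ i * (1 - r)⁻¹)
    linarith
  refine (Finset.prod_le_prod (fun i _ => ?_) h2).trans ?_
  · have hxa : r ^ (i + 1) < 1 := pow_lt_one₀ h0 h1 (Nat.succ_ne_zero i)
    apply inv_nonneg.2
    linarith
  · rw [← Real.exp_sum, ← Finset.sum_mul]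
    apply Real.exp_le_exp.2
    apply mul_le_mul_of_nonneg_right _ (by positivity)
    rw [← tsum_geometric_of_lt_one h0 h1]
    exact Summable.sum_le_tsum _ (fun i _ => pow_nonneg h0 i) (summable_geometric_of_lt_one h0 h1)

lemma coeff_P_bound (r : ℝ) (h0 : 0 ≤ r) (h1 : r < 1) (M n : ℕ) :
    ‖PowerSeries.coeff n (P M)‖ * r ^ n ≤ Real.exp ((1 - r)⁻¹ * (1 - r)⁻¹) := by
  have hn : ‖(r : ℂ)‖ = r := by simp [abs_of_nonneg h0]
  obtain ⟨s, _, b⟩ := Ev_P M (r : ℂ) (by rw [hn]; exact h1)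
  rw [hn] at b
  have b2 := b.trans (prod_bound r h0 h1 M)
  refine le_trans ?_ b2
  have := Summable.le_tsum s n (fun j _ => norm_nonneg _)
  rwa [norm_mul, norm_pow, hn] at this

lemma c_bound (r : ℝ) (h0 : 0 ≤ r) (h1 : r < 1) (n : ℕ) :
    ‖c n‖ * r ^ n ≤ Real.exp ((1 - r)⁻¹ * (1 - r)⁻¹) := by
  have h := ((tendsto_coeff n).norm).mul_const (r ^ n)
  exact le_of_tendsto' h (fun M => coeff_P_bound r h0 h1 M n)

lemma exists_bound (x : ℂ) (hx : ‖x‖ < 1) : ∃ b : ℕ → ℝ, Summable b ∧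
    (∀ M n, ‖PowerSeries.coeff n (P M) * x ^ n‖ ≤ b n) ∧ (∀ n, ‖c n * x ^ n‖ ≤ b n) := by
  obtain ⟨r, hr0, hr1⟩ := exists_between hx
  have hrpos : 0 < r := (norm_nonneg x).trans_lt hr0
  have hq : ‖x‖ / r < 1 := (div_lt_one hrpos).2 hr0
  have hq0 : 0 ≤ ‖x‖ / r := by positivity
  refine ⟨fun n => Real.exp ((1 - r)⁻¹ * (1 - r)⁻¹) * (‖x‖ / r) ^ n,
    (summable_geometric_of_lt_one hq0 hq).mul_left _, ?_, ?_⟩
  · intro M n
    have h := coeff_P_bound r hrpos.le hr1 M n
    have e : ‖PowerSeries.coeff n (P M) * x ^ n‖ = ‖PowerSeries.coeff n (P M)‖ * r ^ n * (‖x‖ / r) ^ n := by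
      rw [norm_mul, norm_pow, div_pow]
      field_simp
    rw [e]
    exact mul_le_mul_of_nonneg_right h (pow_nonneg hq0 n)
  · intro n
    have h := c_bound r hrpos.le hr1 n
    have e : ‖c n * x ^ n‖ = ‖c n‖ * r ^ n * (‖x‖ / r) ^ n := by
      rw [norm_mul, norm_pow, div_pow]
      field_simp
    rw [e]
    exact mul_le_mul_of_nonneg_right h (pow_nonneg hq0 n)

noncomputable def F (x : ℂ) : ℂ := ∑' n, c n * x ^ n

lemma summable_norm_c (x : ℂ) (hx : ‖x‖ < 1) : Summable (fun n => ‖c n * x ^ n‖) := by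
  obtain ⟨b, hb, _, h2⟩ := exists_bound x hx
  exact Summable.of_nonneg_of_le (fun _ => norm_nonneg _) h2 hb

lemma tendsto_V (x : ℂ) (hx : ‖x‖ < 1) : Tendsto (fun M => V M x) atTop (𝓝 (F x)) := by
  obtain ⟨b, hb, h1, _⟩ := exists_bound x hx
  have := tendsto_tsum_of_dominated_convergence (𝓕 := atTop)
    (f := fun M n => PowerSeries.coeff n (P M) * x ^ n) (g := fun n => c n * x ^ n) hb
    (fun n => (tendsto_coeff n).mul_const _) (Eventually.of_forall (fun M n => h1 M n))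
  refine this.congr ?_
  intro M
  exact (Ev_P M x hx).2.1

lemma V_three (M : ℕ) (x : ℂ) : V (3 * M) x = ∏ m ∈ range M, (1 + x ^ (3 * m + 1))⁻¹ := by
  induction M with
  | zero => simp [V]
  | succ M ih =>
    have e : 3 * (M + 1) = 3 * M + 1 + 1 + 1 := by ring
    rw [Finset.prod_range_succ, ← ih, e, V, V, Finset.prod_range_succ, Finset.prod_range_succ, Finset.prod_range_succ]
    have e1 : (3 * M + 1) % 3 = 1 := by omega
    have e2 : ¬ (3 * M + 1 + 1) % 3 = 1 := by omega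
    have e3 : ¬ (3 * M + 1 + 1 + 1) % 3 = 1 := by omega
    simp [e1, e2, e3]


/-- terms of the logarithm -/
noncomputable def T (x : ℂ) (j : ℕ) : ℂ := (-1) ^ j * x ^ j / (j * (1 - x ^ (3 * j)))

noncomputable def L (x : ℂ) : ℂ := ∑' j, T x j

lemma one_sub_norm_le (x : ℂ) (hx : ‖x‖ < 1) (j : ℕ) (hj : j ≠ 0) : 1 - ‖x‖ ≤ ‖1 - x ^ (3 * j)‖ := by
  have h1 : ‖x ^ (3 * j)‖ ≤ ‖x‖ := by
    rw [norm_pow]
    exact pow_le_of_le_one (norm_nonneg x) hx.le (by omega)
  have h2 : ‖(1 : ℂ)‖ - ‖x ^ (3 * j)‖ ≤ ‖1 - x ^ (3 * j)‖ := norm_sub_norm_le _ _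
  rw [norm_one] at h2
  linarith

lemma hasSum_logs (x : ℂ) (hx : ‖x‖ < 1) (M : ℕ) :
    HasSum (fun j : ℕ => T x j * (1 - (x ^ (3 * j)) ^ M))
      (∑ m ∈ range M, -Complex.log (1 + x ^ (3 * m + 1))) := by
  have h : ∀ m ∈ range M, HasSum (fun j : ℕ => -((-1) ^ (j + 1) * (x ^ (3 * m + 1)) ^ j / (j : ℂ)))
      (-Complex.log (1 + x ^ (3 * m + 1))) := by
    intro m _
    apply HasSum.neg
    apply Complex.hasSum_taylorSeries_log
    rw [norm_pow]
    exact pow_lt_one₀ (norm_nonneg x) hx (by omega)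
  have h2 := hasSum_sum h
  refine h2.congr_fun ?_
  intro j
  rcases Nat.eq_zero_or_pos j with rfl | hj
  · simp [T]
  · have hne : (1 - x ^ (3 * j)) ≠ 0 := by
      intro h0
      have := one_sub_norm_le x hx j (by omega)
      rw [h0, norm_zero] at this
      linarith
    have hne' : x ^ (3 * j) ≠ 1 := by
      intro h0
      exact hne (by rw [h0, sub_self])
    have hj' : (j : ℂ) ≠ 0 := by exact_mod_cast hj.ne'
    have e : ∀ m ∈ range M, -((-1) ^ (j + 1) * (x ^ (3 * m + 1)) ^ j / (j : ℂ)) =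
        ((-1) ^ j * x ^ j / j) * (x ^ (3 * j)) ^ m := by
      intro m _
      rw [← pow_mul, ← pow_mul, show (3 * m + 1) * j = j + 3 * j * m by ring, pow_add]
      ring
    rw [Finset.sum_congr rfl e, ← Finset.mul_sum, geom_sum_eq hne', T]
    have hne3 : x ^ (3 * j) - 1 ≠ 0 := sub_ne_zero.2 hne'
    field_simp
    ring

lemma T_bound (x : ℂ) (hx : ‖x‖ < 1) (j : ℕ) : ‖T x j‖ ≤ ‖x‖ ^ j * (1 - ‖x‖)⁻¹ := by
  have hr : 0 < 1 - ‖x‖ := by linarith
  rcases Nat.eq_zero_or_pos j with rfl | hj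
  · simp only [T, Nat.cast_zero, zero_mul, div_zero, norm_zero]
    positivity
  · have h1 := one_sub_norm_le x hx j (by omega)
    rw [T, norm_div, norm_mul, norm_mul, norm_pow, norm_pow, norm_neg, norm_one, one_pow, one_mul]
    rw [div_eq_mul_inv]
    apply mul_le_mul_of_nonneg_left _ (pow_nonneg (norm_nonneg x) j)
    apply inv_anti₀ hr
    have hj1 : (1 : ℝ) ≤ ‖(j : ℂ)‖ := by
      rw [Complex.norm_natCast]
      exact_mod_cast hj
    calc 1 - ‖x‖ ≤ ‖1 - x ^ (3 * j)‖ := h1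
      _ = 1 * ‖1 - x ^ (3 * j)‖ := (one_mul _).symm
      _ ≤ _ := mul_le_mul_of_nonneg_right hj1 (norm_nonneg _)

lemma summable_T (x : ℂ) (hx : ‖x‖ < 1) : Summable (T x) := by
  apply Summable.of_norm
  apply Summable.of_nonneg_of_le (fun _ => norm_nonneg _) (T_bound x hx)
  exact (summable_geometric_of_lt_one (norm_nonneg x) hx).mul_right _

lemma tendsto_logs (x : ℂ) (hx : ‖x‖ < 1) :
    Tendsto (fun M => ∑ m ∈ range M, -Complex.log (1 + x ^ (3 * m + 1))) atTop (𝓝 (L x)) := by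
  have hb : Summable (fun j : ℕ => ‖x‖ ^ j * (1 - ‖x‖)⁻¹ * 2) :=
    ((summable_geometric_of_lt_one (norm_nonneg x) hx).mul_right _).mul_right _
  have := tendsto_tsum_of_dominated_convergence (𝓕 := atTop)
    (f := fun (M : ℕ) (j : ℕ) => T x j * (1 - (x ^ (3 * j)) ^ M)) (g := T x) hb ?_ ?_
  · refine this.congr ?_
    intro M
    exact (hasSum_logs x hx M).tsum_eq
  · intro j
    rcases Nat.eq_zero_or_pos j with rfl | hj
    · simp [T]
    · have hlt : ‖x ^ (3 * j)‖ < 1 := by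
        rw [norm_pow]
        exact pow_lt_one₀ (norm_nonneg x) hx (by omega)
      have h1 := tendsto_pow_atTop_nhds_zero_of_norm_lt_one hlt
      have h2 := (h1.const_sub 1).const_mul (T x j)
      simpa using h2
  · refine Eventually.of_forall ?_
    intro M j
    rw [norm_mul]
    apply mul_le_mul (T_bound x hx j) _ (norm_nonneg _)
    · have : 0 < 1 - ‖x‖ := by linarith
      positivity
    · refine (norm_sub_le _ _).trans ?_
      rw [norm_one, norm_pow, norm_pow]
      have := pow_le_one₀ (n := M) (pow_nonneg (norm_nonneg x) (3 * j)) (pow_le_one₀ (norm_nonneg x) hx.le)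
      linarith

lemma F_eq (x : ℂ) (hx : ‖x‖ < 1) : F x = Complex.exp (L x) := by
  have h1 := (tendsto_logs x hx).cexp
  have h2 : Tendsto (fun M : ℕ => V (3 * M) x) atTop (𝓝 (F x)) := by
    apply (tendsto_V x hx).comp
    apply tendsto_atTop_mono (f := fun M : ℕ => M) (fun M => by omega) tendsto_id
  refine tendsto_nhds_unique h2 (h1.congr ?_)
  intro M
  rw [V_three, Complex.exp_sum]
  apply Finset.prod_congr rfl
  intro m _
  rw [Complex.exp_neg, Complex.exp_log]
  intro h0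
  have h3 : ‖x ^ (3 * m + 1)‖ = 1 := by
    have : x ^ (3 * m + 1) = -1 := by linear_combination h0
    rw [this, norm_neg, norm_one]
  rw [norm_pow] at h3
  have := pow_lt_one₀ (norm_nonneg x) hx (show 3 * m + 1 ≠ 0 by omega)
  linarith

lemma norm_F (x : ℂ) (hx : ‖x‖ < 1) : ‖F x‖ = Real.exp (L x).re := by
  rw [F_eq x hx, Complex.norm_exp]


lemma tendsto_aux (a : ℂ) (ha : a ≠ 0) :
    Tendsto (fun t : ℝ => (t : ℂ) / (1 - Complex.exp (-(a * t)))) (𝓝[>] 0) (𝓝 (1 / a)) := by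
  have hd : HasDerivAt (fun t : ℝ => 1 - Complex.exp (-(a * (t : ℂ)))) a 0 := by
    have h1 : HasDerivAt (fun t : ℝ => (t : ℂ)) 1 0 := Complex.ofRealCLM.hasDerivAt
    have h2 := ((h1.const_mul a).neg).cexp
    have h3 := h2.const_sub 1
    simpa using h3
  have h4 := (hasDerivAt_iff_tendsto_slope.1 hd).mono_left
    (nhdsWithin_mono 0 (fun t (ht : 0 < t) => ht.ne'))
  have h5 := h4.inv₀ ha
  rw [one_div]
  refine h5.congr ?_
  intro t
  simp [slope_def_module, mul_comm]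
  rw [div_eq_mul_inv]

/-- the path approaching the point `ζ` on the unit circle -/
noncomputable def X (ζ w : ℂ) (t : ℝ) : ℂ := ζ * Complex.exp (-(t * w))

lemma norm_X (ζ w : ℂ) (hζ : ‖ζ‖ = 1) (t : ℝ) : ‖X ζ w t‖ = Real.exp (-(t * w.re)) := by
  rw [X, norm_mul, hζ, one_mul, Complex.norm_exp]
  simp

lemma norm_X_lt (ζ w : ℂ) (hζ : ‖ζ‖ = 1) (hw : 0 < w.re) (t : ℝ) (ht : 0 < t) : ‖X ζ w t‖ < 1 := by
  rw [norm_X ζ w hζ, Real.exp_lt_one_iff]
  have := mul_pos ht hw
  linarith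

/-- the limiting term -/
noncomputable def limTerm (ζ w : ℂ) (j : ℕ) : ℂ := if ζ ^ (3 * j) = 1 then (-ζ) ^ j / (3 * j ^ 2 * w) else 0

lemma term_bound (ζ w : ℂ) (hζ : ‖ζ‖ = 1) (hw : 0 < w.re) (t : ℝ) (ht : 0 < t) (j : ℕ) :
    ‖(t : ℂ) * T (X ζ w t) j‖ ≤ w.re⁻¹ * (1 / (j : ℝ) ^ 2) := by
  rcases Nat.eq_zero_or_pos j with rfl | hj
  · simp [T]
  · have hx := norm_X_lt ζ w hζ hw t ht
    have hj1 : (0 : ℝ) < j := by exact_mod_cast hj
    set u : ℝ := j * (t * w.re) with hu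
    have hupos : 0 < u := by positivity
    have e1 : ‖X ζ w t‖ ^ j = Real.exp (-u) := by
      rw [norm_X ζ w hζ, ← Real.exp_nat_mul]
      congr 1
      rw [hu]; ring
    have e3 : ‖X ζ w t‖ ^ (3 * j) = Real.exp (-(3 * u)) := by
      rw [norm_X ζ w hζ, ← Real.exp_nat_mul]
      congr 1
      push_cast
      rw [hu]; ring
    have h1 : 1 - Real.exp (-(3 * u)) ≤ ‖1 - (X ζ w t) ^ (3 * j)‖ := by
      have := norm_sub_norm_le (1 : ℂ) ((X ζ w t) ^ (3 * j))
      rw [norm_one, norm_pow, e3] at this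
      exact this
    have h2 : u * Real.exp (-u) ≤ 1 - Real.exp (-(3 * u)) := by
      have a1 := Real.add_one_le_exp u
      have a2 : Real.exp (-(2 * u)) ≤ 1 := Real.exp_le_one_iff.2 (by linarith)
      have a3 : u ≤ Real.exp u - Real.exp (-(2 * u)) := by linarith
      have a4 : (Real.exp u - Real.exp (-(2 * u))) * Real.exp (-u) = 1 - Real.exp (-(3 * u)) := by
        rw [sub_mul, ← Real.exp_add, ← Real.exp_add]
        congr 1
        · simp
        · congr 1; ring
      rw [← a4]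
      exact mul_le_mul_of_nonneg_right a3 (Real.exp_pos _).le
    have h3 : 0 < ‖1 - (X ζ w t) ^ (3 * j)‖ := by
      have := mul_pos hupos (Real.exp_pos (-u))
      linarith
    rw [T, norm_mul, norm_div, norm_mul, norm_mul, norm_pow, norm_pow, norm_neg, norm_one, one_pow, one_mul,
      e1, Complex.norm_real, Real.norm_of_nonneg ht.le, Complex.norm_natCast]
    have h4 : Real.exp (-u) / (j * ‖1 - (X ζ w t) ^ (3 * j)‖) ≤ 1 / (j * u) := by
      rw [div_le_div_iff₀ (by positivity) (by positivity)]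
      nlinarith
    calc t * (Real.exp (-u) / (j * ‖1 - (X ζ w t) ^ (3 * j)‖)) ≤ t * (1 / (j * u)) :=
          mul_le_mul_of_nonneg_left h4 ht.le
      _ = w.re⁻¹ * (1 / (j : ℝ) ^ 2) := by
          rw [hu]
          field_simp

lemma tendsto_term (ζ w : ℂ) (hζ : ‖ζ‖ = 1) (hw : 0 < w.re) (j : ℕ) :
    Tendsto (fun t : ℝ => (t : ℂ) * T (X ζ w t) j) (𝓝[>] 0) (𝓝 (limTerm ζ w j)) := by
  rcases Nat.eq_zero_or_pos j with rfl | hj
  · simp [T, limTerm]
  · have hw0 : w ≠ 0 := by rintro rfl; simp at hw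
    have hj0 : (j : ℂ) ≠ 0 := by exact_mod_cast hj.ne'
    have ht : Tendsto (fun t : ℝ => (t : ℂ)) (𝓝[>] 0) (𝓝 0) := by
      have : Tendsto (fun t : ℝ => (t : ℂ)) (𝓝 0) (𝓝 ((0 : ℝ) : ℂ)) := Complex.continuous_ofReal.tendsto 0
      simpa using this.mono_left nhdsWithin_le_nhds
    have hexp : ∀ k : ℕ, Tendsto (fun t : ℝ => (X ζ w t) ^ k) (𝓝[>] 0) (𝓝 (ζ ^ k)) := by
      intro k
      have : Tendsto (fun t : ℝ => X ζ w t) (𝓝[>] 0) (𝓝 ζ) := by
        have h1 := ((ht.mul_const w).neg.cexp).const_mul ζ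
        simpa [X] using h1
      exact this.pow k
    unfold limTerm
    split_ifs with h3
    · have h1 := tendsto_aux (3 * j * w) (mul_ne_zero (mul_ne_zero (by norm_num) hj0) hw0)
      have h2 := ((h1.mul (hexp j)).const_mul ((-1) ^ j / (j : ℂ)))
      have e : (-1) ^ j / (j : ℂ) * (1 / (3 * ↑j * w) * ζ ^ j) = (-ζ) ^ j / (3 * (j : ℂ) ^ 2 * w) := by
        rw [neg_pow ζ j]
        field_simp
      rw [e] at h2
      refine h2.congr' ?_
      filter_upwards with t
      have e2 : (X ζ w t) ^ (3 * j) = Complex.exp (-(3 * j * w * t)) := by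
        rw [X, mul_pow, h3, one_mul, ← Complex.exp_nat_mul]
        congr 1
        push_cast
        ring
      rw [T, e2, ← div_div]
      ring
    · have hne : (1 - ζ ^ (3 * j)) ≠ 0 := sub_ne_zero.2 (Ne.symm h3)
      have h1 : Tendsto (fun t : ℝ => T (X ζ w t) j) (𝓝[>] 0)
          (𝓝 ((-1) ^ j * ζ ^ j / (j * (1 - ζ ^ (3 * j))))) := by
        unfold T
        apply Tendsto.div ((hexp j).const_mul _) (((hexp (3 * j)).const_sub 1).const_mul _)
        exact mul_ne_zero hj0 hne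
      have h2 := ht.mul h1
      simpa using h2


lemma norm_lim (ζ w : ℂ) (hζ : ‖ζ‖ = 1) (j : ℕ) : ‖limTerm ζ w j‖ ≤ 3⁻¹ * ‖w‖⁻¹ * (1 / (j : ℝ) ^ 2) := by
  unfold limTerm
  split_ifs with h
  · rw [norm_div, norm_pow, norm_neg, hζ, one_pow, norm_mul, norm_mul, norm_pow, Complex.norm_natCast]
    rw [Complex.norm_ofNat]
    apply le_of_eq
    rw [one_div, one_div, mul_inv, mul_inv]
    ring
  · rw [norm_zero]
    positivity

lemma summable_sq : Summable (fun j : ℕ => 1 / (j : ℝ) ^ 2) :=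
  Real.summable_one_div_nat_pow.2 (by norm_num)

lemma summable_lim (ζ w : ℂ) (hζ : ‖ζ‖ = 1) : Summable (limTerm ζ w) := by
  apply Summable.of_norm
  exact Summable.of_nonneg_of_le (fun _ => norm_nonneg _) (norm_lim ζ w hζ) (summable_sq.mul_left _)

lemma tendsto_tL (ζ w : ℂ) (hζ : ‖ζ‖ = 1) (hw : 0 < w.re) :
    Tendsto (fun t : ℝ => t * (L (X ζ w t)).re) (𝓝[>] 0) (𝓝 (∑' j, (limTerm ζ w j).re)) := by
  have h1 : Tendsto (fun t : ℝ => ∑' j, (t : ℂ) * T (X ζ w t) j) (𝓝[>] 0) (𝓝 (∑' j, limTerm ζ w j)) := by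
    apply tendsto_tsum_of_dominated_convergence (summable_sq.mul_left (w.re⁻¹))
    · exact tendsto_term ζ w hζ hw
    · filter_upwards [self_mem_nhdsWithin] with t ht j
      exact term_bound ζ w hζ hw t ht j
  have h2 := (Complex.continuous_re.tendsto _).comp h1
  rw [Complex.re_tsum (summable_lim ζ w hζ)] at h2
  refine h2.congr' ?_
  filter_upwards with t
  simp only [Function.comp]
  rw [tsum_mul_left, L]
  simp

lemma tail6 : ∑' j : ℕ, 1 / ((j + 6 : ℕ) : ℝ) ^ 2 ≤ 0.1814 := by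
  have h := hasSum_zeta_two
  have h2 := h.summable.sum_add_tsum_nat_add 6
  rw [h.tsum_eq] at h2
  have e : ∑ i ∈ range 6, 1 / (i : ℝ) ^ 2 = 1 + 1/4 + 1/9 + 1/16 + 1/25 := by
    simp [Finset.sum_range_succ]
    norm_num
  rw [e] at h2
  have hpi := Real.pi_lt_d4
  have hpi0 := Real.pi_pos
  have : Real.pi ^ 2 < 3.1416 ^ 2 := by
    apply pow_lt_pow_left₀ hpi hpi0.le (by norm_num)
  nlinarith

lemma tail7 : ∑' j : ℕ, 1 / ((j + 7 : ℕ) : ℝ) ^ 2 ≤ 0.1537 := by
  have h := hasSum_zeta_two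
  have h2 := h.summable.sum_add_tsum_nat_add 7
  rw [h.tsum_eq] at h2
  have e : ∑ i ∈ range 7, 1 / (i : ℝ) ^ 2 = 1 + 1/4 + 1/9 + 1/16 + 1/25 + 1/36 := by
    simp [Finset.sum_range_succ]
    norm_num
  rw [e] at h2
  have hpi := Real.pi_lt_d4
  have hpi0 := Real.pi_pos
  have : Real.pi ^ 2 < 3.1416 ^ 2 := by
    apply pow_lt_pow_left₀ hpi hpi0.le (by norm_num)
  nlinarith

lemma summable_lim_re (ζ w : ℂ) (hζ : ‖ζ‖ = 1) : Summable (fun j => (limTerm ζ w j).re) := by
  have := (Complex.hasSum_re (summable_lim ζ w hζ).hasSum).summable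
  exact this

lemma lim_re_le (ζ : ℂ) (hζ : ‖ζ‖ = 1) (j : ℕ) : (limTerm ζ 1 j).re ≤ 3⁻¹ * (1 / (j : ℝ) ^ 2) := by
  have h1 := norm_lim ζ 1 hζ j
  have h2 := Complex.re_le_norm (limTerm ζ 1 j)
  rw [norm_one, inv_one, mul_one] at h1
  linarith

/-- the sum over all `j` is bounded by the first terms plus a tail -/
lemma radial_split (ζ : ℂ) (hζ : ‖ζ‖ = 1) :
    ∑' j, (limTerm ζ 1 j).re ≤ ∑ j ∈ range 6, (limTerm ζ 1 j).re + 3⁻¹ * 0.1814 := by
  rw [← (summable_lim_re ζ 1 hζ).sum_add_tsum_nat_add 6]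
  have h1 : ∑' j : ℕ, (limTerm ζ 1 (j + 6)).re ≤ ∑' j : ℕ, 3⁻¹ * (1 / ((j + 6 : ℕ) : ℝ) ^ 2) := by
    apply Summable.tsum_le_tsum (fun j => lim_re_le ζ hζ (j + 6))
    · exact (summable_nat_add_iff 6).2 (summable_lim_re ζ 1 hζ)
    · exact ((summable_nat_add_iff 6).2 summable_sq).mul_left _
  rw [tsum_mul_left] at h1
  have h2 := tail6
  have h3 : 3⁻¹ * (∑' j : ℕ, 1 / ((j + 6 : ℕ) : ℝ) ^ 2) ≤ 3⁻¹ * 0.1814 := by
    apply mul_le_mul_of_nonneg_left h2 (by norm_num)
  linarith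

lemma lim_zero_of_ne (ζ w : ℂ) (j : ℕ) (h : ζ ^ (3 * j) ≠ 1) : (limTerm ζ w j).re = 0 := by
  simp [limTerm, h]

lemma radial_bound (ζ : ℂ) (hζ : ‖ζ‖ = 1) : ∑' j, (limTerm ζ 1 j).re ≤ 0.1647 := by
  refine (radial_split ζ hζ).trans ?_
  have b := lim_re_le ζ hζ
  have b2 := b 2
  have b3 := b 3
  have b4 := b 4
  have b5 := b 5
  norm_num at b2 b3 b4 b5
  have h0 : (limTerm ζ 1 0).re = 0 := by simp [limTerm]
  simp only [Finset.sum_range_succ, Finset.sum_range_zero, h0]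
  by_cases h3 : ζ ^ 3 = 1
  · have hf : (ζ - 1) * (ζ ^ 2 + ζ + 1) = 0 := by linear_combination h3
    rcases mul_eq_zero.1 hf with h | h
    · have h1 : ζ = 1 := by linear_combination h
      subst h1
      norm_num [limTerm]
    · have hre : ζ.re = -1/2 := by
        have hn : ζ.re ^ 2 + ζ.im ^ 2 = 1 := by
          have := Complex.sq_norm ζ
          rw [hζ, Complex.normSq_apply] at this
          nlinarith
        have hr := congrArg Complex.re h
        have hi := congrArg Complex.im h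
        simp [pow_two] at hr hi
        have hi' : ζ.im * (2 * ζ.re + 1) = 0 := by linarith
        rcases mul_eq_zero.1 hi' with h5 | h5
        · rw [h5] at hn hr
          have : ζ.re = -2 := by nlinarith
          rw [this] at hn
          norm_num at hn
        · linarith
      have p1 : (-ζ) ^ 1 = -ζ := by ring
      have p2 : (-ζ) ^ 2 = -ζ - 1 := by linear_combination h
      have p3 : (-ζ) ^ 3 = -1 := by linear_combination -h3
      have p4 : (-ζ) ^ 4 = ζ := by linear_combination ζ * h3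
      have p5 : (-ζ) ^ 5 = 1 + ζ := by linear_combination -ζ^2 * h3 - h
      have q : ∀ j, ζ ^ (3 * j) = 1 := fun j => by rw [pow_mul, h3, one_pow]
      have e : ∀ j, limTerm ζ 1 j = (-ζ) ^ j / (3 * j ^ 2 * 1) := fun j => by simp [limTerm, q j]
      have e1 : (limTerm ζ 1 1).re = 1/6 := by
        rw [e, p1]
        have : (-ζ / (3 * ((1 : ℕ) : ℂ) ^ 2 * 1)) = ((1/3 : ℝ) : ℂ) * (-ζ) := by push_cast; ring
        rw [this, Complex.re_ofReal_mul]
        simp [hre]
        norm_num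
      have e2 : (limTerm ζ 1 2).re = -1/24 := by
        rw [e, p2]
        have : ((-ζ - 1) / (3 * ((2 : ℕ) : ℂ) ^ 2 * 1)) = ((1/12 : ℝ) : ℂ) * (-ζ - 1) := by push_cast; ring
        rw [this, Complex.re_ofReal_mul]
        simp [hre]
        norm_num
      have e3 : (limTerm ζ 1 3).re = -1/27 := by
        rw [e, p3]
        have : ((-1) / (3 * ((3 : ℕ) : ℂ) ^ 2 * 1)) = ((1/27 : ℝ) : ℂ) * (-1) := by push_cast; ring
        rw [this, Complex.re_ofReal_mul]
        simp
        norm_num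
      have e4 : (limTerm ζ 1 4).re = -1/96 := by
        rw [e, p4]
        have : (ζ / (3 * ((4 : ℕ) : ℂ) ^ 2 * 1)) = ((1/48 : ℝ) : ℂ) * ζ := by push_cast; ring
        rw [this, Complex.re_ofReal_mul, hre]
        norm_num
      rw [e1, e2, e3, e4]
      norm_num at b5 ⊢
      linarith
  · have e1 : (limTerm ζ 1 1).re = 0 := lim_zero_of_ne ζ 1 1 (by simpa using h3)
    by_cases h6 : ζ ^ 6 = 1
    · have e3 : (limTerm ζ 1 3).re = 0 := lim_zero_of_ne ζ 1 3 (by
        intro h; apply h3; norm_num at h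
        calc ζ ^ 3 = ζ ^ 9 := by linear_combination (-ζ^3) * h6
          _ = 1 := h)
      have e5 : (limTerm ζ 1 5).re = 0 := lim_zero_of_ne ζ 1 5 (by
        intro h; apply h3; norm_num at h
        calc ζ ^ 3 = ζ ^ 15 := by linear_combination (-ζ^3 - ζ^9) * h6
          _ = 1 := h)
      rw [e1, e3, e5]
      norm_num
      linarith
    · have e2 : (limTerm ζ 1 2).re = 0 := lim_zero_of_ne ζ 1 2 (by simpa using h6)
      rw [e1, e2]
      norm_num
      linarith


/-- a primitive cube root of unity -/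
noncomputable def om : ℂ := ⟨-1/2, Real.sqrt 3 / 2⟩

/-- direction of the non-radial approach -/
noncomputable def w1 : ℂ := ⟨1, -1⟩

lemma sq3 : Real.sqrt 3 * Real.sqrt 3 = 3 := Real.mul_self_sqrt (by norm_num)

lemma om_poly : om ^ 2 + om + 1 = 0 := by
  apply Complex.ext
  · simp [om, pow_two]
    nlinarith [sq3]
  · simp [om, pow_two]
    ring

lemma om_cube : om ^ 3 = 1 := by linear_combination (om - 1) * om_poly

lemma norm_om : ‖om‖ = 1 := by
  have h : ‖om‖ ^ 3 = 1 := by rw [← norm_pow, om_cube, norm_one]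
  exact (pow_eq_one_iff_of_nonneg (norm_nonneg _) (by norm_num)).1 h

lemma lim_om (j : ℕ) : (limTerm om w1 j).re = (((-om) ^ j).re - ((-om) ^ j).im) / (6 * j ^ 2) := by
  have q : om ^ (3 * j) = 1 := by rw [pow_mul, om_cube, one_pow]
  have hw : w1⁻¹ = ⟨1/2, 1/2⟩ := by
    apply Complex.ext
    · rw [Complex.inv_re]
      simp [w1, Complex.normSq_apply]
      norm_num
    · rw [Complex.inv_im]
      simp [w1, Complex.normSq_apply]
      norm_num
  have e : limTerm om w1 j = ((1 / (3 * (j : ℝ) ^ 2) : ℝ) : ℂ) * ((-om) ^ j * w1⁻¹) := by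
    simp only [limTerm, q, if_true]
    push_cast
    rw [div_eq_mul_inv, mul_inv]
    ring
  rw [e, Complex.re_ofReal_mul, hw, Complex.mul_re]
  simp only
  ring

lemma norm_w1_inv : ‖w1‖⁻¹ ≤ 0.7072 := by
  have h : ‖w1‖ ^ 2 = 2 := by
    rw [Complex.sq_norm, Complex.normSq_apply]
    simp [w1]
    norm_num
  have h0 : 0 ≤ ‖w1‖ := norm_nonneg _
  have h1 : 1.41421 ≤ ‖w1‖ := by
    by_contra hc
    push Not at hc
    nlinarith
  calc ‖w1‖⁻¹ ≤ (1.41421)⁻¹ := inv_anti₀ (by norm_num) h1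
    _ ≤ 0.7072 := by norm_num

lemma nonradial_bound : 0.17 < ∑' j, (limTerm om w1 j).re := by
  rw [← (summable_lim_re om w1 norm_om).sum_add_tsum_nat_add 7]
  have h1 : -(3⁻¹ * 0.7072 * 0.1537) ≤ ∑' j : ℕ, (limTerm om w1 (j + 7)).re := by
    have h2 : ∑' j : ℕ, -(3⁻¹ * 0.7072 * (1 / ((j + 7 : ℕ) : ℝ) ^ 2)) ≤ ∑' j : ℕ, (limTerm om w1 (j + 7)).re := by
      apply Summable.tsum_le_tsum
      · intro j
        have a1 := norm_lim om w1 norm_om (j + 7)
        have a2 := Complex.abs_re_le_norm (limTerm om w1 (j + 7))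
        have a3 := (abs_le.1 a2).1
        have a4 : 3⁻¹ * ‖w1‖⁻¹ * (1 / ((j + 7 : ℕ) : ℝ) ^ 2) ≤ 3⁻¹ * 0.7072 * (1 / ((j + 7 : ℕ) : ℝ) ^ 2) := by
          apply mul_le_mul_of_nonneg_right _ (by positivity)
          apply mul_le_mul_of_nonneg_left norm_w1_inv (by norm_num)
        linarith
      · exact (((summable_nat_add_iff 7).2 summable_sq).mul_left _).neg
      · exact (summable_nat_add_iff 7).2 (summable_lim_re om w1 norm_om)
    rw [tsum_neg, tsum_mul_left] at h2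
    have h3 := tail7
    have h4 : 3⁻¹ * 0.7072 * (∑' j : ℕ, 1 / ((j + 7 : ℕ) : ℝ) ^ 2) ≤ 3⁻¹ * 0.7072 * 0.1537 := by
      apply mul_le_mul_of_nonneg_left h3 (by norm_num)
    linarith
  have p1 : (-om) ^ 1 = -om := by ring
  have p2 : (-om) ^ 2 = -om - 1 := by linear_combination om_poly
  have p3 : (-om) ^ 3 = -1 := by linear_combination -om_cube
  have p4 : (-om) ^ 4 = om := by linear_combination om * om_cube
  have p5 : (-om) ^ 5 = 1 + om := by linear_combination -om^2 * om_cube - om_poly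
  have p6 : (-om) ^ 6 = 1 := by linear_combination (om^3 + 1) * om_cube
  have hs : 1.732 ≤ Real.sqrt 3 := by
    apply Real.le_sqrt_of_sq_le
    norm_num
  have hsum : 0.2123 ≤ ∑ j ∈ range 7, (limTerm om w1 j).re := by
    simp only [Finset.sum_range_succ, Finset.sum_range_zero, lim_om, p1, p2, p3, p4, p5, p6]
    simp [om]
    norm_num
    linarith
  norm_num at h1 hsum ⊢
  linarith


/-- the signed count as an integer -/
noncomputable def d (n : ℕ) : ℤ := (partitionPolynomial A13 n).eval (-1)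

lemma c_eq_d (n : ℕ) : c n = (d n : ℂ) := rfl

lemma periodic_bound (p : ℕ) (hp : 1 ≤ p) (N : ℕ)
    (h : ∀ n : ℕ, N ≤ n → Int.sign (d (n + p)) = Int.sign (d n)) :
    ∃ C : ℝ, 0 ≤ C ∧ ∀ x : ℂ, ‖x‖ < 1 →
      ‖F x‖ ≤ ∑ k ∈ range p, ‖F ((‖x‖ : ℂ) * Complex.exp (2 * Real.pi * Complex.I / p) ^ k)‖ + C := by
  set ζ : ℂ := Complex.exp (2 * Real.pi * Complex.I / p) with hζdef
  have hp0 : p ≠ 0 := by omega
  have hpc : (p : ℂ) ≠ 0 := by exact_mod_cast hp0
  have hprim : IsPrimitiveRoot ζ p := Complex.isPrimitiveRoot_exp p hp0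
  have hζn : ‖ζ‖ = 1 := hprim.norm'_eq_one hp0
  -- periodic extension of the signs
  set s : ℕ → ℤ := fun n => Int.sign (d (n + N * p)) with hs
  have hs_per : Function.Periodic s p := by
    intro n
    simp only [hs]
    rw [show n + p + N * p = (n + N * p) + p by ring]
    apply h
    nlinarith
  have hs_eq : ∀ n, N ≤ n → s n = Int.sign (d n) := by
    intro n hn
    have : ∀ k, Int.sign (d (n + k * p)) = Int.sign (d n) := by
      intro k
      induction k with
      | zero => simp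
      | succ k ih =>
        rw [← ih, show n + (k + 1) * p = (n + k * p) + p by ring]
        apply h
        nlinarith
    exact this N
  have hs_abs : ∀ n, ‖(s n : ℂ)‖ ≤ 1 := by
    intro n
    rw [Complex.norm_intCast]
    have : |s n| ≤ 1 := by
      simp only [hs]
      rcases lt_trichotomy (d (n + N * p)) 0 with h1 | h1 | h1
      · rw [Int.sign_eq_neg_one_of_neg h1]; simp
      · rw [h1]; simp
      · rw [Int.sign_eq_one_of_pos h1]; simp
    exact_mod_cast this
  -- finite Fourier expansion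
  set sh : ℕ → ℂ := fun k => (p : ℂ)⁻¹ * ∑ r ∈ range p, (s r : ℂ) * ζ ^ (k * (p - r)) with hsh
  have hsh_norm : ∀ k, ‖sh k‖ ≤ 1 := by
    intro k
    simp only [hsh]
    rw [norm_mul, norm_inv, Complex.norm_natCast]
    have h1 : ‖∑ r ∈ range p, (s r : ℂ) * ζ ^ (k * (p - r))‖ ≤ p := by
      refine (norm_sum_le _ _).trans ?_
      calc ∑ r ∈ range p, ‖(s r : ℂ) * ζ ^ (k * (p - r))‖ ≤ ∑ r ∈ range p, (1 : ℝ) := by
            apply Finset.sum_le_sum
            intro r _
            rw [norm_mul, norm_pow, hζn, one_pow, mul_one]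
            exact hs_abs r
        _ = p := by simp
    have hppos : (0 : ℝ) < p := by exact_mod_cast hp
    calc (p : ℝ)⁻¹ * ‖∑ r ∈ range p, (s r : ℂ) * ζ ^ (k * (p - r))‖ ≤ (p : ℝ)⁻¹ * p :=
          mul_le_mul_of_nonneg_left h1 (by positivity)
      _ = 1 := inv_mul_cancel₀ hppos.ne'
  have hgeom : ∀ m : ℕ, ∑ k ∈ range p, (ζ ^ m) ^ k = if p ∣ m then (p : ℂ) else 0 := by
    intro m
    split_ifs with hd
    · have : ζ ^ m = 1 := (hprim.pow_eq_one_iff_dvd m).2 hd
      simp [this]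
    · have hne : ζ ^ m ≠ 1 := fun h1 => hd ((hprim.pow_eq_one_iff_dvd m).1 h1)
      rw [geom_sum_eq hne, ← pow_mul, mul_comm m p, pow_mul, hprim.pow_eq_one, one_pow]
      simp
  have hfour : ∀ n : ℕ, (s n : ℂ) = ∑ k ∈ range p, sh k * (ζ ^ k) ^ n := by
    intro n
    simp only [hsh]
    have e1 : ∀ k ∈ range p, (p : ℂ)⁻¹ * (∑ r ∈ range p, (s r : ℂ) * ζ ^ (k * (p - r))) * (ζ ^ k) ^ n
        = ∑ r ∈ range p, (p : ℂ)⁻¹ * (s r : ℂ) * (ζ ^ (n + (p - r))) ^ k := by
      intro k _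
      rw [mul_assoc, Finset.sum_mul, Finset.mul_sum]
      apply Finset.sum_congr rfl
      intro r _
      rw [← pow_mul, ← pow_mul, show (n + (p - r)) * k = k * (p - r) + k * n by ring, pow_add]
      ring
    rw [Finset.sum_congr rfl e1, Finset.sum_comm]
    simp_rw [← Finset.mul_sum, hgeom]
    rw [Finset.sum_eq_single (n % p)]
    · have hd : p ∣ n + (p - n % p) := by
        have h1 := Nat.mod_lt n hp
        have h2 := Nat.div_add_mod n p
        refine ⟨n / p + 1, ?_⟩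
        rw [mul_add, mul_one]
        omega
      rw [if_pos hd, hs_per.map_mod_nat]
      field_simp
    · intro r hr hne
      have hr' := Finset.mem_range.1 hr
      have hd : ¬ p ∣ n + (p - r) := by
        rintro ⟨q, hq⟩
        apply hne
        have h1 : n + p = r + p * q := by omega
        have h2 : (n + p) % p = (r + p * q) % p := by rw [h1]
        rw [Nat.add_mod_right, Nat.add_mul_mod_self_left, Nat.mod_eq_of_lt hr'] at h2
        exact h2.symm
      rw [if_neg hd, mul_zero]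
    · intro hn
      exact absurd (Finset.mem_range.2 (Nat.mod_lt n hp)) hn
  refine ⟨∑ n ∈ range N, 2 * ‖c n‖, Finset.sum_nonneg (fun _ _ => by positivity), ?_⟩
  intro x hx
  set r : ℝ := ‖x‖ with hr
  have hr0 : 0 ≤ r := norm_nonneg x
  have hrn : ‖(r : ℂ)‖ = r := by rw [Complex.norm_real, Real.norm_of_nonneg hr0]
  have hxk : ∀ k, ‖(r : ℂ) * ζ ^ k‖ < 1 := by
    intro k
    rw [norm_mul, norm_pow, hζn, one_pow, mul_one, hrn]
    exact hx
  -- the error terms
  set e : ℕ → ℂ := fun n => ((‖c n‖ : ℝ) : ℂ) * (r : ℂ) ^ n - (s n : ℂ) * c n * (r : ℂ) ^ n with he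
  have he0 : ∀ n, n ∉ range N → e n = 0 := by
    intro n hn
    have hn' : N ≤ n := by simpa using hn
    simp only [he]
    rw [hs_eq n hn', c_eq_d, Complex.norm_intCast]
    have : ((Int.sign (d n) : ℤ) : ℂ) * (d n : ℂ) = ((|(d n : ℝ)| : ℝ) : ℂ) := by
      rw [← Int.cast_mul, Int.sign_mul_self_eq_abs, ← Int.cast_abs, Complex.ofReal_intCast]
    rw [this]
    ring
  have hen : ∀ n, ‖e n‖ ≤ 2 * ‖c n‖ := by
    intro n
    simp only [he]
    refine (norm_sub_le _ _).trans ?_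
    have h1 : ‖((r : ℂ)) ^ n‖ ≤ 1 := by
      rw [norm_pow, hrn]
      exact pow_le_one₀ hr0 hx.le
    rw [norm_mul, norm_mul, norm_mul, Complex.norm_real, norm_norm]
    have h2 : ‖c n‖ * ‖(r : ℂ) ^ n‖ ≤ ‖c n‖ * 1 := mul_le_mul_of_nonneg_left h1 (norm_nonneg _)
    have h3 : ‖(s n : ℂ)‖ * ‖c n‖ * ‖(r : ℂ) ^ n‖ ≤ 1 * ‖c n‖ * 1 := by
      apply mul_le_mul _ h1 (norm_nonneg _) (by positivity)
      exact mul_le_mul_of_nonneg_right (hs_abs n) (norm_nonneg _)
    linarith
  have hsumr : Summable (fun n => ‖c n * x ^ n‖) := summable_norm_c x hx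
  have key : (((∑' n, ‖c n * x ^ n‖ : ℝ)) : ℂ) =
      ∑ k ∈ range p, sh k * F ((r : ℂ) * ζ ^ k) + ∑ n ∈ range N, e n := by
    have h1 : ∀ n, ((‖c n * x ^ n‖ : ℝ) : ℂ) =
        ∑ k ∈ range p, sh k * (c n * ((r : ℂ) * ζ ^ k) ^ n) + e n := by
      intro n
      have h2 : ∑ k ∈ range p, sh k * (c n * ((r : ℂ) * ζ ^ k) ^ n) = (s n : ℂ) * c n * (r : ℂ) ^ n := by
        rw [hfour n, Finset.sum_mul, Finset.sum_mul]
        apply Finset.sum_congr rfl
        intro k _
        rw [mul_pow]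
        ring
      rw [h2, he]
      simp only
      rw [norm_mul, norm_pow, ← hr]
      push_cast
      ring
    rw [Complex.ofReal_tsum]
    simp_rw [h1]
    have hsk : ∀ k, Summable (fun n => c n * ((r : ℂ) * ζ ^ k) ^ n) := fun k =>
      Summable.of_norm (summable_norm_c _ (hxk k))
    have hse : Summable e := summable_of_ne_finset_zero he0
    rw [Summable.tsum_add (summable_sum (fun k _ => (hsk k).mul_left _)) hse]
    rw [Summable.tsum_finsetSum (fun k _ => (hsk k).mul_left _)]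
    rw [tsum_eq_sum he0]
    congr 1
    apply Finset.sum_congr rfl
    intro k _
    rw [tsum_mul_left]
    rfl
  calc ‖F x‖ ≤ ∑' n, ‖c n * x ^ n‖ := norm_tsum_le_tsum_norm hsumr
    _ = ‖(((∑' n, ‖c n * x ^ n‖ : ℝ)) : ℂ)‖ := by
        rw [Complex.norm_real, Real.norm_of_nonneg (tsum_nonneg (fun _ => norm_nonneg _))]
    _ ≤ ‖∑ k ∈ range p, sh k * F ((r : ℂ) * ζ ^ k)‖ + ‖∑ n ∈ range N, e n‖ := by
        rw [key]; exact norm_add_le _ _
    _ ≤ ∑ k ∈ range p, ‖F ((r : ℂ) * ζ ^ k)‖ + ∑ n ∈ range N, 2 * ‖c n‖ := by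
        apply add_le_add
        · refine (norm_sum_le _ _).trans ?_
          apply Finset.sum_le_sum
          intro k _
          rw [norm_mul]
          calc ‖sh k‖ * ‖F ((r : ℂ) * ζ ^ k)‖ ≤ 1 * ‖F ((r : ℂ) * ζ ^ k)‖ :=
                mul_le_mul_of_nonneg_right (hsh_norm k) (norm_nonneg _)
            _ = _ := one_mul _
        · refine (norm_sum_le _ _).trans ?_
          exact Finset.sum_le_sum (fun n _ => hen n)


lemma X_radial (ζ : ℂ) (t : ℝ) : X ζ 1 t = (Real.exp (-t) : ℂ) * ζ := by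
  rw [X, mul_one, mul_comm]
  push_cast
  rfl

/-- The sign sequence of `f_{A,n}(-1)` for `A = {1,4,7,...}` is not eventually periodic. -/
theorem result :
    ¬ ∃ p : ℕ, 1 ≤ p ∧ ∃ N : ℕ, ∀ n : ℕ, N ≤ n →
      Int.sign ((partitionPolynomial {a | ∃ m : ℕ, a = 3 * m + 1} (n + p)).eval (-1)) =
      Int.sign ((partitionPolynomial {a | ∃ m : ℕ, a = 3 * m + 1} n).eval (-1)) := by
  rintro ⟨p, hp, N, h⟩
  obtain ⟨C, hC, hb⟩ := periodic_bound p hp N h
  have hp0 : p ≠ 0 := by omega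
  set ζ : ℂ := Complex.exp (2 * Real.pi * Complex.I / p) with hζdef
  have hprim : IsPrimitiveRoot ζ p := Complex.isPrimitiveRoot_exp p hp0
  have hζn : ‖ζ‖ = 1 := hprim.norm'_eq_one hp0
  have hζk : ∀ k, ‖ζ ^ k‖ = 1 := fun k => by rw [norm_pow, hζn, one_pow]
  have hw1 : (0 : ℝ) < w1.re := by simp [w1]
  have hone : (0 : ℝ) < (1 : ℂ).re := by simp
  -- eventually in t
  have ev1 : ∀ᶠ t : ℝ in 𝓝[>] 0, 0.17 < t * (L (X om w1 t)).re :=
    (tendsto_tL om w1 norm_om hw1).eventually_const_lt nonradial_bound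
  have ev2 : ∀ᶠ t : ℝ in 𝓝[>] 0, ∀ k ∈ range p, t * (L (X (ζ ^ k) 1 t)).re < 0.165 := by
    rw [Filter.eventually_all_finset]
    intro k _
    apply (tendsto_tL (ζ ^ k) 1 (hζk k) hone).eventually_lt_const
    have := radial_bound (ζ ^ k) (hζk k)
    norm_num at this ⊢
    linarith
  have ev3 : ∀ᶠ t : ℝ in 𝓝[>] 0, (p : ℝ) + C < Real.exp (0.005 / t) := by
    have h1 : Tendsto (fun t : ℝ => 0.005 / t) (𝓝[>] 0) atTop := by
      have := tendsto_inv_nhdsGT_zero (𝕜 := ℝ)
      have h2 := this.const_mul_atTop (show (0 : ℝ) < 0.005 by norm_num)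
      simpa [div_eq_mul_inv] using h2
    exact (Real.tendsto_exp_atTop.comp h1).eventually_gt_atTop _
  obtain ⟨t, ⟨h1, h2, h3⟩, ht⟩ := ((ev1.and (ev2.and ev3)).and self_mem_nhdsWithin).exists
  have ht0 : (0 : ℝ) < t := ht
  have hx := norm_X_lt om w1 norm_om hw1 t ht0
  have hb1 := hb (X om w1 t) hx
  have hnx : ‖X om w1 t‖ = Real.exp (-t) := by
    rw [norm_X om w1 norm_om]
    simp [w1]
  rw [norm_F _ hx, hnx] at hb1
  have hk : ∀ k ∈ range p, ‖F ((Real.exp (-t) : ℂ) * ζ ^ k)‖ ≤ Real.exp (0.165 / t) := by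
    intro k hk
    rw [← X_radial, norm_F _ (norm_X_lt (ζ ^ k) 1 (hζk k) hone t ht0)]
    apply Real.exp_le_exp.2
    rw [le_div_iff₀ ht0]
    have := h2 k hk
    linarith
  have hsum : ∑ k ∈ range p, ‖F ((Real.exp (-t) : ℂ) * ζ ^ k)‖ ≤ p * Real.exp (0.165 / t) := by
    refine (Finset.sum_le_sum hk).trans ?_
    simp
  have hlow : Real.exp (0.17 / t) < Real.exp ((L (X om w1 t)).re) := by
    apply Real.exp_lt_exp.2
    rw [div_lt_iff₀ ht0]
    linarith
  have hge1 : 1 ≤ Real.exp (0.165 / t) := Real.one_le_exp (by positivity)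
  have hCle : C ≤ C * Real.exp (0.165 / t) := by
    calc C = C * 1 := (mul_one C).symm
      _ ≤ _ := mul_le_mul_of_nonneg_left hge1 hC
  have hfin : Real.exp (0.17 / t) < ((p : ℝ) + C) * Real.exp (0.165 / t) := by
    calc Real.exp (0.17 / t) < _ := hlow
      _ ≤ _ := hb1
      _ ≤ p * Real.exp (0.165 / t) + C * Real.exp (0.165 / t) := add_le_add hsum hCle
      _ = _ := by ring
  have hsplit : Real.exp (0.17 / t) = Real.exp (0.005 / t) * Real.exp (0.165 / t) := by
    rw [← Real.exp_add]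
    congr 1
    field_simp
    norm_num
  rw [hsplit] at hfin
  have := lt_of_mul_lt_mul_right hfin (Real.exp_pos _).le
  linarith

end Pool.Agent.Results.MP_5217bf_nt.SignNotPeriodic
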